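import Mathlib
import Pool.Agent.V11172.SeqGen

namespace Pool.Agent.Results.MP_5ec752_co.AvsB

open Pool.Agent.V11172.SeqGen

/-- *Regular type A sequences*: start with `(1,1)`; at each step put in front a term equal to the
sum of the first `j ≥ 1` current terms, or at the end a term equal to the sum of the last `j ≥ 1`
current terms. -/
inductive RegA : List ℕ → Prop
  | base : RegA [1, 1]
  | left (d : List ℕ) (j : ℕ) : RegA d → 1 ≤ j → j ≤ d.length → RegA ((d.take j).sum :: d)
  | right (d : List ℕ) (j : ℕ) : RegA d → 1 ≤ j → j ≤ d.length →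
      RegA (d ++ [(d.drop (d.length - j)).sum])

/-- `a(k_1,…,k_m)`: the least `n` such that some regular type A sequence of length `n` contains
some ordering of the multiset `{k_1,…,k_m}` as a subsequence. (`ks.Subperm d` says that some
permutation of the list `ks` is a sublist of `d`.) -/
noncomputable def a (ks : List ℕ) : ℕ := sInf {n | ∃ d, RegA d ∧ d.length = n ∧ ks.Subperm d}

/-- *Regular type B sequences*: start with `(1,1)`; at each step attach at the left
end or at the right end a new term equal to the sum of a block `d_{p+1},…,d_q` of one or more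
consecutive terms (anywhere in the current sequence). -/
inductive RegB : List ℕ → Prop
  | base : RegB [1, 1]
  | left (d : List ℕ) (p q : ℕ) : RegB d → p < q → q ≤ d.length →
      RegB (((d.take q).drop p).sum :: d)
  | right (d : List ℕ) (p q : ℕ) : RegB d → p < q → q ≤ d.length →
      RegB (d ++ [((d.take q).drop p).sum])

/-- `b(k_1,…,k_m)`: the least `n` such that some regular type B sequence of length `n` has a
permutation of `(k_1,…,k_m)` as a subsequence. (`ks.Subperm d` says that some permutation of the
list `ks` is a sublist of `d`.) -/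
noncomputable def b (ks : List ℕ) : ℕ := sInf {n | ∃ d, RegB d ∧ d.length = n ∧ ks.Subperm d}

/-- all one-step extensions (type A) -/
def extA (d : List ℕ) : List (List ℕ) :=
  (List.range d.length).flatMap (fun j => [(d.take (j + 1)).sum :: d,
    d ++ [(d.drop (d.length - (j + 1))).sum]])

lemma sum_take_le (d : List ℕ) (j : ℕ) : (d.take j).sum ≤ d.sum := by
  conv_rhs => rw [← List.take_append_drop j d]
  rw [List.sum_append]; omega

lemma sum_drop_le (d : List ℕ) (j : ℕ) : (d.drop j).sum ≤ d.sum := by
  conv_rhs => rw [← List.take_append_drop j d]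
  rw [List.sum_append]; omega

lemma RegA.len {d : List ℕ} (h : RegA d) : 2 ≤ d.length := by
  induction h with
  | base => simp
  | left d j _ _ _ ih => simp; omega
  | right d j _ _ _ ih => simp; omega

lemma goodA : Good RegA extA where
  step := by
    intro d hd hl
    cases hd with
    | base => simp at hl
    | left d j h h1 h2 =>
      refine ⟨d, h, ?_⟩
      unfold extA
      rw [List.mem_flatMap]
      exact ⟨j - 1, by rw [List.mem_range]; omega, by
        rw [Nat.sub_add_cancel h1]; simp⟩
    | right d j h h1 h2 =>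
      refine ⟨d, h, ?_⟩
      unfold extA
      rw [List.mem_flatMap]
      exact ⟨j - 1, by rw [List.mem_range]; omega, by
        rw [Nat.sub_add_cancel h1]; simp⟩
  base := by
    intro d hd hl
    cases hd with
    | base => simp
    | left d j h h1 h2 => have := h.len; simp at hl; omega
    | right d j h h1 h2 => have := h.len; simp at hl; omega
  base2 := by
    intro d hd hl
    cases hd with
    | base => rfl
    | left d j h h1 h2 => have := h.len; simp at hl; omega
    | right d j h h1 h2 => have := h.len; simp at hl; omega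
  shape := by
    intro d e he
    unfold extA at he
    rw [List.mem_flatMap] at he
    obtain ⟨j, _, hj⟩ := he
    simp only [List.mem_cons, List.not_mem_nil, or_false] at hj
    rcases hj with rfl | rfl
    · exact ⟨_, sum_take_le d _, Or.inl rfl⟩
    · exact ⟨_, sum_drop_le d _, Or.inr rfl⟩

/-- all one-step extensions (type B) -/
def extB (d : List ℕ) : List (List ℕ) :=
  (List.range d.length).flatMap (fun q => (List.range (q + 1)).flatMap (fun p =>
    [((d.take (q + 1)).drop p).sum :: d, d ++ [((d.take (q + 1)).drop p).sum]]))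

lemma sum_block_le (d : List ℕ) (p q : ℕ) : ((d.take q).drop p).sum ≤ d.sum := by
  have h1 : ((d.take q).drop p).sum ≤ (d.take q).sum := by
    conv_rhs => rw [← List.take_append_drop p (d.take q)]
    rw [List.sum_append]; omega
  have h2 : (d.take q).sum ≤ d.sum := by
    conv_rhs => rw [← List.take_append_drop q d]
    rw [List.sum_append]; omega
  omega

lemma mem_extB {d : List ℕ} {p q : ℕ} (h1 : p < q) (h2 : q ≤ d.length) :
    (((d.take q).drop p).sum :: d) ∈ extB d ∧ (d ++ [((d.take q).drop p).sum]) ∈ extB d := by
  constructor <;>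
  · unfold extB
    rw [List.mem_flatMap]
    refine ⟨q - 1, by rw [List.mem_range]; omega, ?_⟩
    rw [List.mem_flatMap]
    refine ⟨p, by rw [List.mem_range]; omega, ?_⟩
    rw [Nat.sub_add_cancel (by omega)]; simp

lemma RegB.len {d : List ℕ} (h : RegB d) : 1 ≤ d.length := by
  induction h with
  | base => simp
  | left d p q _ _ _ ih => simp
  | right d p q _ _ _ ih => simp

lemma RegB.two {d : List ℕ} (h : RegB d) : d = [1] ∨ 2 ≤ d.length := by
  cases h with
  | base => right; simp
  | left d p q h _ _ => right; have := h.len; simp; omega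
  | right d p q h _ _ => right; have := h.len; simp; omega

lemma goodB : Good RegB extB where
  step := by
    intro d hd hl
    cases hd with
    | base => simp at hl
    | left d p q h h1 h2 => exact ⟨d, h, (mem_extB h1 h2).1⟩
    | right d p q h h1 h2 => exact ⟨d, h, (mem_extB h1 h2).2⟩
  base := by
    intro d hd hl
    cases hd with
    | base => simp
    | left d p q h h1 h2 =>
      have h0 := h.two
      rcases h0 with rfl | h0
      · have hp : p = 0 := by simp at h2; omega
        have hq : q = 1 := by simp at h2; omega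
        subst hp hq; simp
      · simp at hl; omega
    | right d p q h h1 h2 =>
      have h0 := h.two
      rcases h0 with rfl | h0
      · have hp : p = 0 := by simp at h2; omega
        have hq : q = 1 := by simp at h2; omega
        subst hp hq; simp
      · simp at hl; omega
  base2 := by
    intro d hd hl
    cases hd with
    | base => rfl
    | left d p q h h1 h2 =>
      have h0 := h.two
      rcases h0 with rfl | h0
      · have hp : p = 0 := by simp at h2; omega
        have hq : q = 1 := by simp at h2; omega
        subst hp hq; rfl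
      · simp at hl; omega
    | right d p q h h1 h2 =>
      have h0 := h.two
      rcases h0 with rfl | h0
      · have hp : p = 0 := by simp at h2; omega
        have hq : q = 1 := by simp at h2; omega
        subst hp hq; rfl
      · simp at hl; omega
  shape := by
    intro d e he
    unfold extB at he
    rw [List.mem_flatMap] at he
    obtain ⟨q, _, he⟩ := he
    rw [List.mem_flatMap] at he
    obtain ⟨p, _, hj⟩ := he
    simp only [List.mem_cons, List.not_mem_nil, or_false] at hj
    rcases hj with rfl | rfl
    · exact ⟨_, sum_block_le d _ _, Or.inl rfl⟩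
    · exact ⟨_, sum_block_le d _ _, Or.inr rfl⟩

/-- pruning thresholds -/
def thr : ℕ → ℕ
  | 0 => 2
  | 1 => 4
  | 2 => 7
  | 3 => 14
  | 4 => 28
  | 5 => 55
  | n + 6 => 55 * 2 ^ (n + 1)

lemma thr_spec (n : ℕ) : 2 * thr n < thr (n + 1) + 2 := by
  rcases n with _ | _ | _ | _ | _ | _ | n
  · decide
  · decide
  · decide
  · decide
  · decide
  · decide
  · change 2 * (55 * 2 ^ (n + 1)) < 55 * 2 ^ (n + 1 + 1) + 2
    rw [pow_succ 2 (n + 1)]; omega

set_option maxRecDepth 100000 in
lemma checkA : ∀ d ∈ L extA thr 5, ∀ e ∈ extA d, (55 ∈ e ∨ 61 ∈ e) → ∀ f ∈ extA e,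
    ¬ (55 ∈ f ∧ 61 ∈ f) := by
  decide +kernel

lemma noA {d : List ℕ} (hd : RegA d) (hl : d.length ≤ 9) : ¬ (55 ∈ d ∧ 61 ∈ d) :=
  goodA.no_nine thr thr_spec (by norm_num) (by norm_num) (by norm_num) (by decide) (by decide)
    checkA hd hl

lemma seqA : RegA [55, 29, 14, 8, 4, 2, 1, 1, 59, 61] := by
  have h0 : RegA [1, 1] := RegA.base
  have h1 : RegA [2, 1, 1] := RegA.left _ 2 h0 (by simp) (by simp)
  have h2 : RegA [4, 2, 1, 1] := RegA.left _ 3 h1 (by simp) (by simp)
  have h3 : RegA [8, 4, 2, 1, 1] := RegA.left _ 4 h2 (by simp) (by simp)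
  have h4 : RegA [14, 8, 4, 2, 1, 1] := RegA.left _ 3 h3 (by simp) (by simp)
  have h5 : RegA [29, 14, 8, 4, 2, 1, 1] := RegA.left _ 5 h4 (by simp) (by simp)
  have h6 : RegA [55, 29, 14, 8, 4, 2, 1, 1] := RegA.left _ 4 h5 (by simp) (by simp)
  have h7 : RegA [55, 29, 14, 8, 4, 2, 1, 1, 59] := RegA.right _ 7 h6 (by simp) (by simp)
  have h8 : RegA [55, 29, 14, 8, 4, 2, 1, 1, 59, 61] := RegA.right _ 3 h7 (by simp) (by simp)
  exact h8

lemma seqB : RegB [55, 31, 16, 8, 4, 2, 1, 1, 61] := by
  have h0 : RegB [1, 1] := RegB.base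
  have h1 : RegB [2, 1, 1] := RegB.left _ 0 2 h0 (by simp) (by simp)
  have h2 : RegB [4, 2, 1, 1] := RegB.left _ 0 3 h1 (by simp) (by simp)
  have h3 : RegB [8, 4, 2, 1, 1] := RegB.left _ 0 4 h2 (by simp) (by simp)
  have h4 : RegB [16, 8, 4, 2, 1, 1] := RegB.left _ 0 5 h3 (by simp) (by simp)
  have h5 : RegB [31, 16, 8, 4, 2, 1, 1] := RegB.left _ 0 5 h4 (by simp) (by simp)
  have h6 : RegB [55, 31, 16, 8, 4, 2, 1, 1] := RegB.left _ 0 3 h5 (by simp) (by simp)
  have h7 : RegB [55, 31, 16, 8, 4, 2, 1, 1, 61] := RegB.right _ 1 6 h6 (by simp) (by simp)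
  exact h7

lemma aPair : a [55, 61] = 10 := by
  unfold a
  apply le_antisymm
  · apply Nat.sInf_le
    exact ⟨_, seqA, rfl, List.subperm_of_subset (by decide) (by decide)⟩
  · refine le_csInf ?_ ?_
    · exact ⟨10, _, seqA, rfl, List.subperm_of_subset (by decide) (by decide)⟩
    rintro n ⟨d, hd, hl, hs⟩
    by_contra hn
    exact noA hd (by omega) ⟨hs.subset (by simp), hs.subset (by simp)⟩

lemma bPair : b [55, 61] = 9 := by
  unfold b
  apply le_antisymm
  · apply Nat.sInf_le
    exact ⟨_, seqB, rfl, List.subperm_of_subset (by decide) (by decide)⟩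
  · refine le_csInf ?_ ?_
    · exact ⟨9, _, seqB, rfl, List.subperm_of_subset (by decide) (by decide)⟩
    rintro n ⟨d, hd, hl, hs⟩
    by_contra hn
    have h55 : 55 ∈ d := hs.subset (by simp)
    have h61 : 61 ∈ d := hs.subset (by simp)
    have hl7 : ¬ d.length ≤ 7 := fun h7 => by
      have := goodB.small 5 d hd h7 55 h55
      omega
    obtain ⟨e, he, hde⟩ := goodB.step d hd (by omega)
    have h1 := goodB.length_step hde
    have hes := goodB.small 5 e he (by omega)
    have h55e : 55 ∉ e := fun h' => by have := hes 55 h'; omega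
    have h61e : 61 ∉ e := fun h' => by have := hes 61 h'; omega
    obtain ⟨x, -, hx⟩ := goodB.shape e d hde
    have e1 : 55 = x := by
      rcases hx with rfl | rfl
      · exact (List.mem_cons.mp h55).resolve_right h55e
      · exact List.mem_singleton.mp ((List.mem_append.mp h55).resolve_left h55e)
    have e2 : 61 = x := by
      rcases hx with rfl | rfl
      · exact (List.mem_cons.mp h61).resolve_right h61e
      · exact List.mem_singleton.mp ((List.mem_append.mp h61).resolve_left h61e)
    omega

/-- `a(55,61) = 10` while `b(55,61) = 9`; hence `a(k₁,k₂) = b(k₁,k₂)` fails in general. -/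
theorem result : (a [55, 61] = 10 ∧ b [55, 61] = 9) ∧
    ¬ ∀ k₁ k₂ : ℕ, 0 < k₁ → 0 < k₂ → a [k₁, k₂] = b [k₁, k₂] := by
  refine ⟨⟨aPair, bPair⟩, fun h => ?_⟩
  have := h 55 61 (by norm_num) (by norm_num)
  rw [aPair, bPair] at this
  omega

end Pool.Agent.Results.MP_5ec752_co.AvsB
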